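import Pool.Agent.Lib.MP_185394_co.Square

/-!
A holey square of order `2h + 1` for odd `h ≥ 3`.
-/

namespace Pool.Agent.Lib.MP_185394_co

set_option linter.unusedSectionVars false

section nhat

variable {R : Type} [CommRing R] [DecidableEq R]

/-- the sign-dependent shift -/
def shift (t0 t1 : R) : Bool → R
  | false => t0
  | true => t1

/-- the underlying array on `Option (Bool × R)` -/
def nhat (c t0 t1 : R) : Option (Bool × R) → Option (Bool × R) → Option (Bool × R)
  | none, none => none
  | none, some (b, j) => some (b, j - shift t0 t1 b * c)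
  | some (b, i), none => some (b, i + shift t0 t1 b * c)
  | some (b, i), some (b', j) =>
    if i = j then (if b = b' then some (b, i) else none)
    else if b = b' ∧ j - i = shift t0 t1 b then none
    else some (xor (xor b b') (decide (j - i = t1)), (i + j) * c)

/-- the pairing of the nonzero points -/
def iota : Option (Bool × R) → Option (Bool × R)
  | none => none
  | some (b, i) => some (!b, i)

/-- a left inverse of each row of `nhat` off the pairing -/
def nhatInv (t0 t1 : R) : Option (Bool × R) → Option (Bool × R) → Option (Bool × R)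
  | none, none => none
  | none, some _ => none
  | some (b, i), none => some (b, i + shift t0 t1 b)
  | some (b, i), some (z, k) =>
    if k = i then some (b, i)
    else if z = b ∧ 2 * k - i - i = shift t0 t1 b then none
    else some (xor (xor b z) (decide (2 * k - i - i = t1)), 2 * k - i)

lemma nhat_row_some {c t0 t1 : R} (hc : 2 * c = 1) (h0 : t0 ≠ 0) (h1 : t1 ≠ 0) (h01 : t0 ≠ t1)
    (b : Bool) (i : R) (Y : Option (Bool × R)) (hY : Y ≠ iota (some (b, i))) :
    nhatInv t0 t1 (some (b, i)) (nhat c t0 t1 (some (b, i)) Y) = Y := by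
  have hs : shift t0 t1 b ≠ 0 := by cases b <;> simpa [shift]
  rcases Y with _ | ⟨b', j⟩
  · have e1 : i + shift t0 t1 b * c ≠ i := by
      intro h
      apply hs
      linear_combination 2 * h - shift t0 t1 b * hc
    have e2 : 2 * (i + shift t0 t1 b * c) - i - i = shift t0 t1 b := by
      linear_combination shift t0 t1 b * hc
    simp only [nhat, nhatInv, if_neg e1, e2, and_self, if_true]
  · by_cases hij : i = j
    · subst hij
      have hbb : b = b' := by
        by_contra hne
        apply hY
        simp only [iota]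
        congr 2
        revert hne
        cases b <;> cases b' <;> decide
      subst hbb
      simp [nhat, nhatInv]
    · by_cases hcase : b = b' ∧ j - i = shift t0 t1 b
      · have e1 : nhat c t0 t1 (some (b, i)) (some (b', j)) = none := by
          simp only [nhat, if_neg hij, if_pos hcase]
        rw [e1]
        simp only [nhatInv]
        obtain ⟨h2, h3⟩ := hcase
        rw [h2] at h3 ⊢
        rw [← h3]
        congr 2
        ring
      · have e1 : nhat c t0 t1 (some (b, i)) (some (b', j)) =
            some (xor (xor b b') (decide (j - i = t1)), (i + j) * c) := by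
          simp only [nhat, if_neg hij, if_neg hcase]
        rw [e1]
        have e2 : (i + j) * c ≠ i := by
          intro h
          apply hij
          linear_combination -2 * h + (i + j) * hc
        have e3 : 2 * ((i + j) * c) - i = j := by
          linear_combination (i + j) * hc
        simp only [nhatInv, if_neg e2, e3]
        have e4 : ¬ (xor (xor b b') (decide (j - i = t1)) = b ∧ j - i = shift t0 t1 b) := by
          rintro ⟨h2, h3⟩
          apply hcase
          refine ⟨?_, h3⟩
          cases b with
          | false =>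
            have h4 : ¬ (j - i = t1) := by
              rw [h3]; simpa [shift] using h01
            simp only [h4, decide_false] at h2
            revert h2
            cases b' <;> decide
          | true =>
            have h4 : j - i = t1 := by
              rw [h3]; rfl
            simp only [h4, decide_true] at h2
            revert h2
            cases b' <;> decide
        rw [if_neg e4]
        congr 2
        cases b <;> cases b' <;> cases decide (j - i = t1) <;> rfl

lemma nhat_row {c t0 t1 : R} (hc : 2 * c = 1) (h0 : t0 ≠ 0) (h1 : t1 ≠ 0) (h01 : t0 ≠ t1)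
    (X Y Y' : Option (Bool × R)) (hY : Y ≠ iota X) (hY' : Y' ≠ iota X)
    (h : nhat c t0 t1 X Y = nhat c t0 t1 X Y') : Y = Y' := by
  rcases X with _ | ⟨b, i⟩
  · rcases Y with _ | ⟨b1, j1⟩
    · exact absurd rfl hY
    · rcases Y' with _ | ⟨b2, j2⟩
      · exact absurd rfl hY'
      · simp only [nhat, Option.some.injEq, Prod.mk.injEq] at h
        obtain ⟨rfl, h2⟩ := h
        congr 2
        linear_combination h2
  · rw [← nhat_row_some hc h0 h1 h01 b i Y hY, h, nhat_row_some hc h0 h1 h01 b i Y' hY']

lemma nhat_swap (c t0 t1 : R) (X Y : Option (Bool × R)) :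
    nhat c t0 t1 X Y = nhat c (-t0) (-t1) Y X := by
  have hshift : ∀ b, shift (-t0) (-t1) b = - shift t0 t1 b := by
    intro b; cases b <;> rfl
  rcases X with _ | ⟨b, i⟩
  · rcases Y with _ | ⟨b', j⟩
    · rfl
    · simp only [nhat, hshift]
      congr 2
      ring
  · rcases Y with _ | ⟨b', j⟩
    · simp only [nhat, hshift]
      congr 2
      ring
    · simp only [nhat, hshift]
      by_cases hij : i = j
      · subst hij
        simp only [if_true]
        by_cases hb : b = b'
        · rw [if_pos hb, if_pos hb.symm, hb]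
        · rw [if_neg hb, if_neg (show ¬ b' = b from fun h => hb h.symm)]
      · rw [if_neg hij, if_neg (show ¬ j = i from fun h => hij h.symm)]
        have e1 : (b = b' ∧ j - i = shift t0 t1 b) ↔ (b' = b ∧ i - j = -shift t0 t1 b') := by
          constructor
          · rintro ⟨h1, h2⟩
            subst h1
            exact ⟨rfl, by linear_combination -h2⟩
          · rintro ⟨h1, h2⟩
            subst h1
            exact ⟨rfl, by linear_combination -h2⟩
        have e2 : (j - i = t1) ↔ (i - j = -t1) :=
          ⟨fun h => by linear_combination -h, fun h => by linear_combination -h⟩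
        have e3 : decide (j - i = t1) = decide (i - j = -t1) := by
          rw [decide_eq_decide]; exact e2
        by_cases hcase : b = b' ∧ j - i = shift t0 t1 b
        · rw [if_pos hcase, if_pos (e1.mp hcase)]
        · rw [if_neg hcase, if_neg (fun h => hcase (e1.mpr h)), e3, add_comm i j,
            Bool.xor_comm b b']

lemma iota_iota (X : Option (Bool × R)) : iota (iota X) = X := by
  rcases X with _ | ⟨b, i⟩
  · rfl
  · simp [iota]

lemma nhat_col {c t0 t1 : R} (hc : 2 * c = 1) (h0 : t0 ≠ 0) (h1 : t1 ≠ 0) (h01 : t0 ≠ t1)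
    (Y X X' : Option (Bool × R)) (hX : X ≠ iota Y) (hX' : X' ≠ iota Y)
    (h : nhat c t0 t1 X Y = nhat c t0 t1 X' Y) : X = X' := by
  rw [nhat_swap, nhat_swap c t0 t1 X'] at h
  exact nhat_row hc (neg_ne_zero.mpr h0) (neg_ne_zero.mpr h1) (fun h => h01 (neg_injective h))
    Y X X' hX hX' h

lemma nhat_row_ne {c t0 t1 : R} (hc : 2 * c = 1)
    (X Y : Option (Bool × R)) (hY : Y ≠ iota X) : nhat c t0 t1 X Y ≠ iota X := by
  rcases X with _ | ⟨b, i⟩
  · rcases Y with _ | ⟨b1, j1⟩
    · exact absurd rfl hY
    · simp [nhat, iota]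
  · rcases Y with _ | ⟨b', j⟩
    · simp [nhat, iota]
    · by_cases hij : i = j
      · subst hij
        have hbb : b = b' := by
          by_contra hne
          apply hY
          simp only [iota]
          congr 2
          revert hne
          cases b <;> cases b' <;> decide
        subst hbb
        simp [nhat, iota]
      · by_cases hcase : b = b' ∧ j - i = shift t0 t1 b
        · simp only [nhat, if_neg hij, if_pos hcase, iota]
          simp
        · simp only [nhat, if_neg hij, if_neg hcase, iota]
          intro h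
          rw [Option.some.injEq, Prod.mk.injEq] at h
          apply hij
          linear_combination -2 * h.2 + (i + j) * hc

lemma nhat_col_ne {c t0 t1 : R} (hc : 2 * c = 1)
    (X Y : Option (Bool × R)) (hX : X ≠ iota Y) : nhat c t0 t1 X Y ≠ iota Y := by
  rw [nhat_swap]
  exact nhat_row_ne hc Y X hX

lemma nhat_diag (c t0 t1 : R) (X : Option (Bool × R)) (hX : X ≠ none) :
    nhat c t0 t1 X X = X := by
  rcases X with _ | ⟨b, i⟩
  · exact absurd rfl hX
  · simp [nhat]

end nhat

section transfer

/-- the identification of `Option (Bool × ZMod h)` with `ZMod (2h+1)` -/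
def toZ (h : ℕ) : Option (Bool × ZMod h) → ZMod (2 * h + 1)
  | none => 0
  | some (false, i) => ((i.val + 1 : ℕ) : ZMod (2 * h + 1))
  | some (true, i) => -((i.val + 1 : ℕ) : ZMod (2 * h + 1))

lemma toZ_iota (h : ℕ) (X : Option (Bool × ZMod h)) : toZ h (iota X) = - toZ h X := by
  rcases X with _ | ⟨b, i⟩
  · simp [toZ, iota]
  · cases b <;> simp [toZ, iota]

lemma toZ_none_iff {h : ℕ} [NeZero h] (X : Option (Bool × ZMod h)) : toZ h X = 0 ↔ X = none := by
  rcases X with _ | ⟨b, i⟩
  · simp [toZ]
  · have hi : i.val < h := ZMod.val_lt i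
    have h1 : ((i.val + 1 : ℕ) : ZMod (2 * h + 1)) ≠ 0 := by
      intro h2
      rw [ZMod.natCast_eq_zero_iff] at h2
      have := Nat.le_of_dvd (by omega) h2
      omega
    cases b
    · simp only [toZ, h1]; simp
    · simp only [toZ, neg_eq_zero, h1]; simp

lemma toZ_inj {h : ℕ} [NeZero h] : Function.Injective (toZ h) := by
  have key : ∀ i j : ZMod h, ((i.val + 1 : ℕ) : ZMod (2 * h + 1)) = ((j.val + 1 : ℕ) :
      ZMod (2 * h + 1)) → i = j := by
    intro i j hij
    have hi : i.val < h := ZMod.val_lt i
    have hj : j.val < h := ZMod.val_lt j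
    rw [ZMod.natCast_eq_natCast_iff'] at hij
    rw [Nat.mod_eq_of_lt (by omega), Nat.mod_eq_of_lt (by omega)] at hij
    exact ZMod.val_injective h (by omega)
  have key2 : ∀ i j : ZMod h, ((i.val + 1 : ℕ) : ZMod (2 * h + 1)) ≠ -((j.val + 1 : ℕ) :
      ZMod (2 * h + 1)) := by
    intro i j hij
    have hi : i.val < h := ZMod.val_lt i
    have hj : j.val < h := ZMod.val_lt j
    rw [eq_neg_iff_add_eq_zero, ← Nat.cast_add, ZMod.natCast_eq_zero_iff] at hij
    have := Nat.le_of_dvd (by omega) hij
    omega
  intro X Y hXY
  rcases X with _ | ⟨b, i⟩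
  · exact ((toZ_none_iff Y).mp (by rw [← hXY]; rfl)).symm
  · rcases Y with _ | ⟨b', j⟩
    · exact (toZ_none_iff _).mp (by rw [hXY]; rfl)
    · cases b <;> cases b'
      · rw [key i j hXY]
      · exact absurd hXY (key2 i j)
      · exact absurd hXY.symm (key2 j i)
      · rw [key i j (neg_injective hXY)]

/-- the equivalence -/
noncomputable def eqvZ (h : ℕ) [NeZero h] : Option (Bool × ZMod h) ≃ ZMod (2 * h + 1) :=
  Equiv.ofBijective (toZ h) (by
    rw [Fintype.bijective_iff_injective_and_card]
    refine ⟨toZ_inj, ?_⟩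
    rw [Fintype.card_option, Fintype.card_prod, ZMod.card, ZMod.card, Fintype.card_bool])

lemma eqvZ_symm_neg {h : ℕ} [NeZero h] (X : ZMod (2 * h + 1)) :
    (eqvZ h).symm (-X) = iota ((eqvZ h).symm X) := by
  rw [Equiv.symm_apply_eq]
  change _ = toZ h _
  rw [toZ_iota]
  change _ = - (eqvZ h) _
  rw [Equiv.apply_symm_apply]

/-- the square on `ZMod (2h+1)` -/
noncomputable def nsqr (h : ℕ) [NeZero h] (c t0 t1 : ZMod h) (X Y : ZMod (2 * h + 1)) :
    ZMod (2 * h + 1) :=
  eqvZ h (nhat c t0 t1 ((eqvZ h).symm X) ((eqvZ h).symm Y))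

theorem nsqr_nsq {h : ℕ} [NeZero h] {c t0 t1 : ZMod h} (hc : 2 * c = 1) (h0 : t0 ≠ 0)
    (h1 : t1 ≠ 0) (h01 : t0 ≠ t1) : NSq (nsqr h c t0 t1) := by
  have hne : ∀ X Y : ZMod (2 * h + 1), Y ≠ -X → (eqvZ h).symm Y ≠ iota ((eqvZ h).symm X) := by
    intro X Y hXY hh
    rw [← eqvZ_symm_neg] at hh
    exact hXY ((eqvZ h).symm.injective hh)
  refine ⟨?_, ?_, ?_, ?_, ?_⟩
  · intro X Y Y' hY hY' hh
    exact (eqvZ h).symm.injective (nhat_row hc h0 h1 h01 _ _ _ (hne X Y hY) (hne X Y' hY')
      ((eqvZ h).injective hh))
  · intro Y X X' hX hX' hh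
    exact (eqvZ h).symm.injective (nhat_col hc h0 h1 h01 _ _ _ (hne Y X hX) (hne Y X' hX')
      ((eqvZ h).injective hh))
  · intro X Y hY hh
    refine nhat_row_ne hc (t0 := t0) (t1 := t1) _ _ (hne X Y hY) ?_
    rw [← eqvZ_symm_neg, Equiv.eq_symm_apply]
    exact hh
  · intro X Y hX hh
    refine nhat_col_ne hc (t0 := t0) (t1 := t1) _ _ (hne Y X hX) ?_
    rw [← eqvZ_symm_neg, Equiv.eq_symm_apply]
    exact hh
  · intro X hX
    unfold nsqr
    rw [nhat_diag, Equiv.apply_symm_apply]
    intro hh
    apply hX
    rw [Equiv.symm_apply_eq] at hh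
    exact hh

end transfer

end Pool.Agent.Lib.MP_185394_co
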