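import Pool.Agent.Lib.MP_185394_co.Square

/-!
The labels showing that the `2m`-plex is indivisible.
-/

namespace Pool.Agent.Lib.MP_185394_co

set_option linter.unusedSectionVars false

/-- a bit as an element of `ZMod 2` -/
def bit2 : Bool → ZMod 2
  | false => 0
  | true => 1

lemma bit2_not (b : Bool) : bit2 (!b) = 1 + bit2 b := by
  cases b
  · decide
  · decide

lemma bit2_add_self (b : Bool) : bit2 b + bit2 b = 0 := by
  cases b
  · decide
  · decide

lemma bit2_add_ne (b b' : Bool) (h : b ≠ b') : bit2 b + bit2 b' = 1 := by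
  revert h
  cases b <;> cases b' <;> decide

section labels

variable {m : ℕ} [NeZero m]

open Sum

/-- the row and column labels -/
def labR : Idx m → ZMod 2 × ZMod m
  | inl (ε, X) => (bit2 ε, 1 - X)
  | inr t => if t = 0 then (0, -1) else (1, t)

/-- the symbol labels -/
def labS : Idx m → ZMod 2 × ZMod m
  | inl (ε, X) => (bit2 ε, X)
  | inr t => if t = 1 then (0, 2) else (1, t)

lemma labS_cell {N : ZMod m → ZMod m → ZMod m}
    (e : Idx m × Idx m)
    (he : e ∈ exactlyOne (bigL N) (Finset.univ.image (inr : ZMod m → Idx m))) :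
    labS (bigL N e.1 e.2) = labR e.1 + labR e.2 := by
  obtain ⟨r, c⟩ := e
  unfold exactlyOne at he
  simp only [Finset.mem_filter, Finset.mem_univ, true_and] at he
  have hin : ∀ t : ZMod m, (inr t : Idx m) ∈ Finset.univ.image (inr : ZMod m → Idx m) :=
    fun t => Finset.mem_image_of_mem _ (Finset.mem_univ t)
  have hnin : ∀ t : Bool × ZMod m, (inl t : Idx m) ∉ Finset.univ.image (inr : ZMod m → Idx m) := by
    intro t ht
    obtain ⟨x, _, hx⟩ := Finset.mem_image.mp ht
    exact absurd hx (by simp)
  rcases r with ⟨ε, X⟩ | t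
  · rcases c with ⟨δ, Y⟩ | t
    · -- the symbol must be in the subsquare
      have hs : bigL N (inl (ε, X)) (inl (δ, Y)) ∈ Finset.univ.image (inr : ZMod m → Idx m) := by
        rcases he with h | h | h
        · exact absurd h.1 (hnin _)
        · exact absurd h.2.1 (hnin _)
        · exact h.2.2
      by_cases hεδ : ε = δ
      · subst hεδ
        by_cases hXY : Y = -X
        · simp only []
          rw [L_anti N ε X Y hXY]
          simp only [labS, labR, if_true, Prod.mk_add_mk, bit2_add_self]
          rw [hXY]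
          congr 1
          ring
        · exfalso
          simp only [bigL, if_true, if_neg hXY] at hs
          split_ifs at hs <;> exact hnin _ hs
      · by_cases hXY : X + Y = 1
        · exfalso
          simp only [bigL, if_neg hεδ, if_pos hXY] at hs
          split_ifs at hs <;> exact hnin _ hs
        · simp only []
          rw [L_cross N ε δ hεδ X Y hXY]
          have h1 : 2 - X - Y ≠ 1 := fun h => hXY (by linear_combination -h)
          simp only [labS, labR, if_neg h1, Prod.mk_add_mk, bit2_add_ne ε δ hεδ]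
          congr 1
          ring
    · by_cases ht : t = 0
      · subst ht
        simp only []
        rw [L_c0]
        simp only [labS, labR, if_true, Prod.mk_add_mk, add_zero]
        congr 1
        ring
      · simp only []
        rw [L_ct N t ht]
        simp only [labS, labR, if_neg ht, Prod.mk_add_mk, bit2_not]
        rw [add_comm (1 : ZMod 2)]
  · rcases c with ⟨δ, Y⟩ | t'
    · by_cases ht : t = 0
      · subst ht
        simp only []
        rw [L_r0]
        simp only [labS, labR, if_true, Prod.mk_add_mk, zero_add]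
        congr 1
        ring
      · simp only []
        rw [L_rt N t ht]
        simp only [labS, labR, if_neg ht, Prod.mk_add_mk, bit2_not]
        rw [add_comm t]
    · exfalso
      rcases he with h | h | h
      · exact h.2.1 (hin _)
      · exact h.1 (hin _)
      · exact h.1 (hin _)

lemma sum_zmod_eq_zero (h2 : ∀ X : ZMod m, X = -X → X = 0) : ∑ X : ZMod m, X = 0 := by
  apply h2
  rw [← Finset.sum_neg_distrib]
  exact (Equiv.sum_comp (Equiv.neg (ZMod m)) (fun x => x)).symm

lemma sum_pair_const (a : ZMod 2) (f : ZMod m → ZMod m) :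
    ∑ X : ZMod m, ((a, f X) : ZMod 2 × ZMod m) = (m * a, ∑ X, f X) := by
  apply Prod.ext
  · rw [Prod.fst_sum]
    simp
  · rw [Prod.snd_sum]

lemma sum_ite_single (d e : ZMod 2 × ZMod m) (x : ZMod m) (f : ZMod m → ZMod 2 × ZMod m)
    (hd : f x = d) :
    ∑ t : ZMod m, (if t = x then e else f t) = (∑ t, f t) + (e - d) := by
  have h1 : ∀ t : ZMod m, (if t = x then e else f t) = f t + (if t = x then e - d else 0) := by
    intro t
    by_cases h : t = x
    · rw [if_pos h, if_pos h, h, hd]; abel
    · rw [if_neg h, if_neg h, add_zero]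
  rw [Finset.sum_congr rfl (fun t _ => h1 t), Finset.sum_add_distrib, Finset.sum_ite_eq' ]
  simp

lemma sum_labR (hm : m % 2 = 1) (h2 : ∀ X : ZMod m, X = -X → X = 0) :
    ∑ a : Idx m, labR a = (1, -1) := by
  have hm2 : (m : ZMod 2) = 1 := by
    rw [← ZMod.natCast_mod, hm]; rfl
  rw [Fintype.sum_sum_type, Fintype.sum_prod_type, Fintype.sum_bool]
  simp only [labR, bit2]
  rw [sum_pair_const, sum_pair_const, sum_ite_single (1, 0) (0, -1) 0 (fun t => (1, t)) rfl,
    sum_pair_const, Finset.sum_sub_distrib, sum_zmod_eq_zero h2, hm2]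
  simp only [Finset.sum_const, Finset.card_univ, ZMod.card]
  apply Prod.ext
  · simp; decide
  · simp

lemma sum_labS (hm : m % 2 = 1) (h2 : ∀ X : ZMod m, X = -X → X = 0) :
    ∑ a : Idx m, labS a = (1, 1) := by
  have hm2 : (m : ZMod 2) = 1 := by
    rw [← ZMod.natCast_mod, hm]; rfl
  rw [Fintype.sum_sum_type, Fintype.sum_prod_type, Fintype.sum_bool]
  simp only [labS, bit2]
  rw [sum_pair_const, sum_pair_const, sum_ite_single (1, 1) (0, 2) 1 (fun t => (1, t)) rfl,
    sum_pair_const, sum_zmod_eq_zero h2, hm2]
  apply Prod.ext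
  · simp; decide
  · simp; ring

/-- The `2m`-plex of the construction is indivisible. -/
theorem indivisible_bigL {N : ZMod m → ZMod m → ZMod m} (hN : NSq N) (hm : m % 2 = 1)
    (h1 : (1 : ZMod m) ≠ -1) (h2 : ∀ X : ZMod m, X = -X → X = 0) (h3 : ¬ 3 ∣ m) :
    IsIndivisiblePlex (bigL N) (2 * m)
      (exactlyOne (bigL N) (Finset.univ.image (inr : ZMod m → Idx m))) := by
  refine ⟨?_, ?_⟩
  · apply isPlex_exactlyOne (bigL_latin hN h1 h2)
    · intro r hr c hc
      obtain ⟨t, _, rfl⟩ := Finset.mem_image.mp hr
      obtain ⟨t', _, rfl⟩ := Finset.mem_image.mp hc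
      rw [L_rr]
      exact Finset.mem_image_of_mem _ (Finset.mem_univ _)
    · rw [Finset.card_image_of_injective _ Sum.inr_injective, Finset.card_univ, ZMod.card]
    · rw [Fintype.card_sum, Fintype.card_prod, ZMod.card, Fintype.card_bool]
      ring
  · intro c hc0 hck Q hQ hQp
    have h4 := smul_defect_eq_zero labR labR labS (fun e he => labS_cell e he) hQ hQp
    rw [sum_labR hm h2, sum_labS hm h2] at h4
    have h5 : c • ((1 : ZMod 2)) = 0 := by
      have := congrArg Prod.fst h4
      simp only [Prod.smul_fst, Prod.fst_sub, Prod.fst_zero] at this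
      rw [← this]
      congr 1
    have h6 : c • ((3 : ZMod m)) = 0 := by
      have := congrArg Prod.snd h4
      simp only [Prod.smul_snd, Prod.snd_sub, Prod.snd_zero] at this
      rw [← this]
      congr 1
      ring
    rw [nsmul_eq_mul, mul_one, ZMod.natCast_eq_zero_iff] at h5
    have h7 : ((c * 3 : ℕ) : ZMod m) = 0 := by
      rw [← h6, nsmul_eq_mul]
      push_cast
      ring
    rw [ZMod.natCast_eq_zero_iff] at h7
    have h8 : Nat.Coprime m 3 :=
      ((Nat.Prime.coprime_iff_not_dvd Nat.prime_three).mpr h3).symm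
    have h9 : m ∣ c := h8.dvd_of_dvd_mul_right h7
    have h10 : Nat.Coprime 2 m := by
      rw [Nat.Prime.coprime_iff_not_dvd Nat.prime_two]
      omega
    have h11 : 2 * m ∣ c := h10.mul_dvd_of_dvd_of_dvd h5 h9
    have := Nat.le_of_dvd hc0 h11
    omega

end labels

end Pool.Agent.Lib.MP_185394_co
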