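import Pool.Agent.Lib.MP_185394_co.Holey
import Pool.Agent.Lib.MP_185394_co.Labels

/-!
The lower bound `κ(3m) ≥ 2m`.
-/

namespace Pool.Agent.Lib.MP_185394_co

/-- a holey square of the required kind gives the bound -/
theorem two_mul_le_kappa_of_nsq {m : ℕ} [NeZero m] {N : ZMod m → ZMod m → ZMod m} (hN : NSq N)
    (hm : m % 2 = 1) (hm3 : 3 ≤ m) (h3 : ¬ 3 ∣ m) : 2 * m ≤ kappa (3 * m) := by
  have h2 : ∀ X : ZMod m, X = -X → X = 0 := by
    intro X hX
    have h4 : (2 : ZMod m) * X = 0 := by linear_combination hX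
    have h5 : IsUnit (2 : ZMod m) := by
      have : ((2 : ℕ) : ZMod m) = 2 := by norm_cast
      rw [← this, ZMod.isUnit_iff_coprime, Nat.Prime.coprime_iff_not_dvd Nat.prime_two]
      omega
    exact (h5.mul_right_eq_zero).mp h4
  have h10 : (1 : ZMod m) ≠ 0 := by
    have : Fact (1 < m) := ⟨by omega⟩
    exact one_ne_zero
  have h1 : (1 : ZMod m) ≠ -1 := fun h => h10 (h2 1 h)
  have hcard : Fintype.card (Idx m) = 3 * m := by
    rw [Fintype.card_sum, Fintype.card_prod, ZMod.card, Fintype.card_bool]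
    ring
  apply le_kappa (by omega) (by omega)
  exact exists_fin_of_indivisible (Fintype.equivFinOfCardEq hcard) (bigL_latin hN h1 h2)
    (indivisible_bigL hN hm h1 h2 h3)

/-- `κ(3m) ≥ 2m` for `m ≡ 3 mod 4`, `m ≥ 7`, `3 ∤ m`. -/
theorem two_mul_le_kappa {m : ℕ} (hm : m % 4 = 3) (hm7 : 7 ≤ m) (h3 : ¬ 3 ∣ m) :
    2 * m ≤ kappa (3 * m) := by
  obtain ⟨h, rfl⟩ : ∃ h, m = 2 * h + 1 := ⟨m / 2, by omega⟩
  have : NeZero h := ⟨by omega⟩
  have : Fact (1 < h) := ⟨by omega⟩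
  have hc : (2 : ZMod h) * (((h + 1) / 2 : ℕ) : ZMod h) = 1 := by
    have h1 : 2 * ((h + 1) / 2) = h + 1 := by omega
    have h2 : ((2 * ((h + 1) / 2) : ℕ) : ZMod h) = 1 := by
      rw [h1]; push_cast; rw [ZMod.natCast_self, zero_add]
    rw [← h2]
    push_cast
    ring
  have h0 : (1 : ZMod h) ≠ 0 := one_ne_zero
  refine two_mul_le_kappa_of_nsq (nsqr_nsq (h := h) (t0 := 1) (t1 := -1) hc h0
    (neg_ne_zero.mpr h0) ?_) (by omega) (by omega) h3
  intro h1
  have h4 : ((2 : ℕ) : ZMod h) = 0 := by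
    push_cast
    linear_combination h1
  rw [ZMod.natCast_eq_zero_iff] at h4
  have := Nat.le_of_dvd (by omega) h4
  omega

end Pool.Agent.Lib.MP_185394_co
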