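import Mathlib

/-!
Latin squares, plexes, and the algebraic criterion for indivisibility.
-/

namespace Pool.Agent.Lib.MP_185394_co

/-- A Latin square with rows, columns and symbols indexed by a finite type `α`: every symbol occurs
at most once (hence exactly once) in each row and in each column. -/
def IsLatinSquare {α : Type} (L : α → α → α) : Prop :=
  (∀ r, Function.Injective (L r)) ∧ ∀ c, Function.Injective fun r => L r c

/-- A `k`-plex of `L`, given by its set of cells: exactly `k` cells in each row, `k` in each column
and `k` carrying each symbol. -/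
def IsPlex {α : Type} [DecidableEq α] (L : α → α → α) (k : ℕ) (P : Finset (α × α)) : Prop :=
  (∀ r, (P.filter fun e => e.1 = r).card = k) ∧
  (∀ c, (P.filter fun e => e.2 = c).card = k) ∧
  ∀ s, (P.filter fun e => L e.1 e.2 = s).card = k

/-- A `k`-plex is indivisible if no subset of it is a `c`-plex for any `c` with `0 < c < k`. -/
def IsIndivisiblePlex {α : Type} [DecidableEq α] (L : α → α → α) (k : ℕ)
    (P : Finset (α × α)) : Prop :=
  IsPlex L k P ∧ ∀ c, 0 < c → c < k → ∀ Q ⊆ P, ¬ IsPlex L c Q

/-- `κ(n)`: the largest `k ≥ 1` such that some Latin square of order `n` contains an indivisible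
`k`-plex. -/
noncomputable def kappa (n : ℕ) : ℕ :=
  sSup {k | 1 ≤ k ∧ ∃ L : Fin n → Fin n → Fin n, IsLatinSquare L ∧
    ∃ P : Finset (Fin n × Fin n), IsIndivisiblePlex L k P}

section transport

variable {α : Type} [DecidableEq α] {n : ℕ}

/-- transport of a Latin square along a bijection -/
def transportL (e : α ≃ Fin n) (L : α → α → α) : Fin n → Fin n → Fin n :=
  fun i j => e (L (e.symm i) (e.symm j))

/-- transport of a set of cells along a bijection -/
def transportP (e : α ≃ Fin n) (P : Finset (α × α)) : Finset (Fin n × Fin n) :=
  P.map (e.prodCongr e).toEmbedding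

lemma isPlex_transport (e : α ≃ Fin n) (L : α → α → α) (k : ℕ) (P : Finset (α × α)) :
    IsPlex (transportL e L) k (transportP e P) ↔ IsPlex L k P := by
  have key : ∀ (p : Fin n × Fin n → Prop) [DecidablePred p] (q : α × α → Prop) [DecidablePred q],
      (∀ x : α × α, p (e x.1, e x.2) ↔ q x) →
      ((transportP e P).filter p).card = (P.filter q).card := by
    intro p _ q _ h
    unfold transportP
    rw [Finset.filter_map, Finset.card_map]
    congr 1
    apply Finset.filter_congr
    intro x _
    exact h x
  unfold IsPlex
  constructor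
  · rintro ⟨h1, h2, h3⟩
    refine ⟨fun r => ?_, fun c => ?_, fun s => ?_⟩
    · rw [← h1 (e r)]
      exact (key _ _ (fun x => by simp)).symm
    · rw [← h2 (e c)]
      exact (key _ _ (fun x => by simp)).symm
    · rw [← h3 (e s)]
      exact (key _ _ (fun x => by simp [transportL])).symm
  · rintro ⟨h1, h2, h3⟩
    refine ⟨fun r => ?_, fun c => ?_, fun s => ?_⟩
    · rw [← h1 (e.symm r)]
      exact key _ _ (fun x => by simp [Equiv.eq_symm_apply])
    · rw [← h2 (e.symm c)]
      exact key _ _ (fun x => by simp [Equiv.eq_symm_apply])
    · rw [← h3 (e.symm s)]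
      exact key _ _ (fun x => by simp [transportL, Equiv.eq_symm_apply])

lemma exists_fin_of_indivisible (e : α ≃ Fin n) {L : α → α → α} {k : ℕ} {P : Finset (α × α)}
    (hL : IsLatinSquare L) (hP : IsIndivisiblePlex L k P) :
    ∃ L' : Fin n → Fin n → Fin n, IsLatinSquare L' ∧
      ∃ P' : Finset (Fin n × Fin n), IsIndivisiblePlex L' k P' := by
  refine ⟨transportL e L, ⟨?_, ?_⟩, transportP e P, (isPlex_transport e L k P).mpr hP.1, ?_⟩
  · intro r a b hab
    exact e.symm.injective (hL.1 _ (e.injective hab))
  · intro c a b hab
    exact e.symm.injective (hL.2 _ (e.injective hab))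
  · intro c hc0 hck Q hQ hQp
    set Q₀ : Finset (α × α) := Q.map (e.symm.prodCongr e.symm).toEmbedding with hQ₀
    have h1 : transportP e Q₀ = Q := by
      rw [hQ₀]
      unfold transportP
      rw [Finset.map_map]
      convert Finset.map_refl
      ext x <;> simp
    rw [← h1, isPlex_transport] at hQp
    refine hP.2 c hc0 hck Q₀ ?_ hQp
    intro x hx
    rw [hQ₀, Finset.mem_map] at hx
    obtain ⟨y, hy, rfl⟩ := hx
    have h2 := hQ hy
    unfold transportP at h2
    rw [Finset.mem_map] at h2
    obtain ⟨z, hz, rfl⟩ := h2
    have h3 : (e.symm.prodCongr e.symm).toEmbedding ((e.prodCongr e).toEmbedding z) = z := by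
      apply Prod.ext <;> simp
    rw [h3]
    exact hz

end transport

section criterion

variable {α : Type} [DecidableEq α] [Fintype α] {G : Type} [AddCommGroup G]

lemma sum_fiber (Q : Finset (α × α)) (f : α × α → α) (g : α → G) (c : ℕ)
    (h : ∀ a, (Q.filter fun e => f e = a).card = c) :
    ∑ e ∈ Q, g (f e) = c • ∑ a, g a := by
  rw [← Finset.sum_fiberwise_of_maps_to (s := Q) (t := Finset.univ) (g := f)
    (fun e _ => Finset.mem_univ _), Finset.smul_sum]
  apply Finset.sum_congr rfl
  intro a _
  rw [Finset.sum_congr rfl (g := fun _ => g a), Finset.sum_const, h a]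
  intro e he
  rw [(Finset.mem_filter.mp he).2]

/-- If the labels satisfy `σ(s) = ρ(r) + γ(c)` on all the entries of `P`, then `c` times the
defect of the total label sums vanishes for every `c`-plex inside `P`. -/
lemma smul_defect_eq_zero {L : α → α → α} {P Q : Finset (α × α)} {c : ℕ}
    (ρ γ σ : α → G) (hlab : ∀ e ∈ P, σ (L e.1 e.2) = ρ e.1 + γ e.2) (hQ : Q ⊆ P)
    (hQp : IsPlex L c Q) : c • (∑ a, σ a - ∑ a, ρ a - ∑ a, γ a) = 0 := by
  obtain ⟨h1, h2, h3⟩ := hQp
  have e1 := sum_fiber Q (fun e => e.1) ρ c h1
  have e2 := sum_fiber Q (fun e => e.2) γ c h2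
  have e3 := sum_fiber Q (fun e => L e.1 e.2) σ c h3
  rw [smul_sub, smul_sub, ← e1, ← e2, ← e3, sub_sub, ← Finset.sum_add_distrib, sub_eq_zero]
  apply Finset.sum_congr rfl
  intro e he
  exact hlab e (hQ he)

end criterion

set_option linter.unusedSectionVars false

section subsquare

variable {α : Type} [DecidableEq α] [Fintype α]

/-- The cells of a Latin square with exactly one of the row, the column, the symbol in `K`. -/
def exactlyOne (L : α → α → α) (K : Finset α) : Finset (α × α) :=
  Finset.univ.filter fun e =>
    (e.1 ∈ K ∧ e.2 ∉ K ∧ L e.1 e.2 ∉ K) ∨ (e.1 ∉ K ∧ e.2 ∈ K ∧ L e.1 e.2 ∉ K) ∨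
      (e.1 ∉ K ∧ e.2 ∉ K ∧ L e.1 e.2 ∈ K)

lemma surj_of_latin_row {L : α → α → α} (hL : IsLatinSquare L) (r : α) :
    Function.Surjective (L r) := Finite.surjective_of_injective (hL.1 r)

lemma surj_of_latin_col {L : α → α → α} (hL : IsLatinSquare L) (c : α) :
    Function.Surjective (fun r => L r c) := Finite.surjective_of_injective (hL.2 c)

/-- In a subsquare: row in `K`, column outside `K` gives a symbol outside `K`. -/
lemma sub_row {L : α → α → α} (hL : IsLatinSquare L) {K : Finset α}
    (hK : ∀ r ∈ K, ∀ c ∈ K, L r c ∈ K) {r c : α} (hr : r ∈ K) (hc : c ∉ K) : L r c ∉ K := by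
  intro h
  have himg : K.image (L r) = K := by
    apply Finset.eq_of_subset_of_card_le
    · intro s hs
      obtain ⟨c, hc, rfl⟩ := Finset.mem_image.mp hs
      exact hK r hr c hc
    · rw [Finset.card_image_of_injective _ (hL.1 r)]
  rw [← himg, Finset.mem_image] at h
  obtain ⟨c', hc', h'⟩ := h
  exact hc (hL.1 r h' ▸ hc')

lemma sub_col {L : α → α → α} (hL : IsLatinSquare L) {K : Finset α}
    (hK : ∀ r ∈ K, ∀ c ∈ K, L r c ∈ K) {r c : α} (hr : r ∉ K) (hc : c ∈ K) : L r c ∉ K := by
  intro h
  have himg : K.image (fun r => L r c) = K := by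
    apply Finset.eq_of_subset_of_card_le
    · intro s hs
      obtain ⟨r, hr, rfl⟩ := Finset.mem_image.mp hs
      exact hK r hr c hc
    · rw [Finset.card_image_of_injective _ (hL.2 c)]
  rw [← himg, Finset.mem_image] at h
  obtain ⟨r', hr', h'⟩ := h
  exact hr (hL.2 c h' ▸ hr')

lemma card_row_filter (P : Finset (α × α)) (r : α) :
    (P.filter fun e => e.1 = r).card = (Finset.univ.filter fun c => (r, c) ∈ P).card := by
  symm
  apply Finset.card_bij (fun c _ => (r, c))
  · intro c hc
    simpa using hc
  · intro c _ c' _ h
    exact (Prod.ext_iff.mp h).2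
  · rintro ⟨r', c⟩ h
    rw [Finset.mem_filter] at h
    obtain ⟨h1, rfl⟩ := h
    exact ⟨c, by simpa using h1, rfl⟩

lemma card_col_filter (P : Finset (α × α)) (c : α) :
    (P.filter fun e => e.2 = c).card = (Finset.univ.filter fun r => (r, c) ∈ P).card := by
  symm
  apply Finset.card_bij (fun r _ => (r, c))
  · intro r hr
    simpa using hr
  · intro r _ r' _ h
    exact (Prod.ext_iff.mp h).1
  · rintro ⟨r, c'⟩ h
    rw [Finset.mem_filter] at h
    obtain ⟨h1, rfl⟩ := h
    exact ⟨r, by simpa using h1, rfl⟩

lemma card_preimage_row {L : α → α → α} (hL : IsLatinSquare L) (r : α) (K : Finset α) :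
    (Finset.univ.filter fun c => L r c ∈ K).card = K.card := by
  apply Finset.card_bij (fun c _ => L r c)
  · intro c hc
    simpa using hc
  · intro c _ c' _ h
    exact hL.1 r h
  · intro s hs
    obtain ⟨c, rfl⟩ := surj_of_latin_row hL r s
    exact ⟨c, by simpa using hs, rfl⟩

lemma card_preimage_col {L : α → α → α} (hL : IsLatinSquare L) (c : α) (K : Finset α) :
    (Finset.univ.filter fun r => L r c ∈ K).card = K.card := by
  apply Finset.card_bij (fun r _ => L r c)
  · intro r hr
    simpa using hr
  · intro r _ r' _ h
    exact hL.2 c h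
  · intro s hs
    obtain ⟨r, rfl⟩ := surj_of_latin_col hL c s
    exact ⟨r, by simpa using hs, rfl⟩

/-- The cells meeting a subsquare of order `m` of a Latin square of order `3m` in exactly one
coordinate form a `2m`-plex. -/
theorem isPlex_exactlyOne {L : α → α → α} (hL : IsLatinSquare L) {K : Finset α} {m : ℕ}
    (hK : ∀ r ∈ K, ∀ c ∈ K, L r c ∈ K) (hKm : K.card = m) (hα : Fintype.card α = 3 * m) :
    IsPlex L (2 * m) (exactlyOne L K) := by
  have hcompl : (Finset.univ.filter fun a : α => a ∉ K).card = 2 * m := by
    have h1 : (Finset.univ.filter fun a : α => a ∉ K) = Kᶜ := by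
      ext a; simp
    rw [h1, Finset.card_compl, hα, hKm]
    omega
  refine ⟨fun r => ?_, fun c => ?_, fun s => ?_⟩
  · rw [card_row_filter]
    by_cases hr : r ∈ K
    · have h1 : (Finset.univ.filter fun c => (r, c) ∈ exactlyOne L K) =
          Finset.univ.filter fun a : α => a ∉ K := by
        apply Finset.filter_congr
        intro c _
        unfold exactlyOne
        simp only [Finset.mem_filter, Finset.mem_univ, true_and, hr, not_true_eq_false,
          false_and, or_false]
        exact ⟨fun h => h.1, fun h => ⟨h, sub_row hL hK hr h⟩⟩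
      rw [h1, hcompl]
    · have h1 : (Finset.univ.filter fun c => (r, c) ∈ exactlyOne L K) =
          K ∪ (Finset.univ.filter fun c => L r c ∈ K) := by
        ext c
        unfold exactlyOne
        simp only [Finset.mem_filter, Finset.mem_univ, true_and, hr, not_false_eq_true,
          false_and, false_or, Finset.mem_union]
        constructor
        · rintro (h | h)
          · exact Or.inl h.1
          · exact Or.inr h.2
        · rintro (h | h)
          · exact Or.inl ⟨h, sub_col hL hK hr h⟩
          · exact Or.inr ⟨fun hc => sub_col hL hK hr hc h, h⟩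
      rw [h1, Finset.card_union_of_disjoint, card_preimage_row hL, hKm]
      · omega
      · rw [Finset.disjoint_left]
        intro c hc h
        rw [Finset.mem_filter] at h
        exact sub_col hL hK hr hc h.2
  · rw [card_col_filter]
    by_cases hc : c ∈ K
    · have h1 : (Finset.univ.filter fun r => (r, c) ∈ exactlyOne L K) =
          Finset.univ.filter fun a : α => a ∉ K := by
        apply Finset.filter_congr
        intro r _
        unfold exactlyOne
        simp only [Finset.mem_filter, Finset.mem_univ, true_and, hc, not_true_eq_false,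
          false_and, and_false, or_false, false_or]
        exact ⟨fun h => h.1, fun h => ⟨h, sub_col hL hK h hc⟩⟩
      rw [h1, hcompl]
    · have h1 : (Finset.univ.filter fun r => (r, c) ∈ exactlyOne L K) =
          K ∪ (Finset.univ.filter fun r => L r c ∈ K) := by
        ext r
        unfold exactlyOne
        simp only [Finset.mem_filter, Finset.mem_univ, true_and, hc, not_false_eq_true,
          false_and, and_false, false_or, Finset.mem_union]
        constructor
        · rintro (h | h)
          · exact Or.inl h.1
          · exact Or.inr h.2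
        · rintro (h | h)
          · exact Or.inl ⟨h, sub_row hL hK h hc⟩
          · exact Or.inr ⟨fun hr => sub_row hL hK hr hc h, h⟩
      rw [h1, Finset.card_union_of_disjoint, card_preimage_col hL, hKm]
      · omega
      · rw [Finset.disjoint_left]
        intro r hr h
        rw [Finset.mem_filter] at h
        exact sub_row hL hK hr hc h.2
  · -- the column carrying `s` in each row
    choose f hf using fun r => surj_of_latin_row hL r s
    have hfinj : Function.Injective f := by
      intro r r' h
      have h1 := hf r
      rw [h, ← hf r'] at h1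
      exact hL.2 (f r') h1
    have h0 : ((exactlyOne L K).filter fun e => L e.1 e.2 = s).card =
        (Finset.univ.filter fun r => (r, f r) ∈ exactlyOne L K).card := by
      symm
      apply Finset.card_bij (fun r _ => (r, f r))
      · intro r hr
        rw [Finset.mem_filter] at hr ⊢
        exact ⟨hr.2, hf r⟩
      · intro r _ r' _ h
        exact (Prod.ext_iff.mp h).1
      · rintro ⟨r, c⟩ h
        rw [Finset.mem_filter] at h
        obtain ⟨h1, h2⟩ := h
        have h3 : c = f r := hL.1 r (h2.trans (hf r).symm)
        subst h3
        exact ⟨r, by simpa using h1, rfl⟩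
    rw [h0]
    by_cases hs : s ∈ K
    · have h1 : (Finset.univ.filter fun r => (r, f r) ∈ exactlyOne L K) =
          Finset.univ.filter fun a : α => a ∉ K := by
        apply Finset.filter_congr
        intro r _
        unfold exactlyOne
        simp only [Finset.mem_filter, Finset.mem_univ, true_and, hf r, hs, not_true_eq_false,
          and_false, and_true, false_or]
        constructor
        · exact fun h => h.1
        · intro h
          refine ⟨h, fun hc => ?_⟩
          have := sub_col hL hK h hc
          rw [hf r] at this
          exact this hs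
      rw [h1, hcompl]
    · have h1 : (Finset.univ.filter fun r => (r, f r) ∈ exactlyOne L K) =
          K ∪ (Finset.univ.filter fun r => f r ∈ K) := by
        ext r
        unfold exactlyOne
        simp only [Finset.mem_filter, Finset.mem_univ, true_and, hf r, hs, not_false_eq_true,
          and_false, and_true, or_false, Finset.mem_union]
        constructor
        · rintro (h | h)
          · exact Or.inl h.1
          · exact Or.inr h.2
        · rintro (h | h)
          · left
            refine ⟨h, fun hc => ?_⟩
            have := hK r h _ hc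
            rw [hf r] at this
            exact hs this
          · right
            refine ⟨fun hr => ?_, h⟩
            have := hK r hr _ h
            rw [hf r] at this
            exact hs this
      have h2 : (Finset.univ.filter fun r => f r ∈ K).card = K.card := by
        apply Finset.card_bij (fun r _ => f r)
        · intro r hr
          simpa using hr
        · intro r _ r' _ h
          exact hfinj h
        · intro c hc
          obtain ⟨r, hr⟩ := Finite.surjective_of_injective hfinj c
          exact ⟨r, by simpa [hr] using hc, hr⟩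
      rw [h1, Finset.card_union_of_disjoint, h2, hKm]
      · omega
      · rw [Finset.disjoint_left]
        intro r hr h
        rw [Finset.mem_filter] at h
        have := hK r hr _ h.2
        rw [hf r] at this
        exact hs this

end subsquare

lemma le_kappa {n k : ℕ} (hn : 0 < n) (hk : 1 ≤ k) (h : ∃ L : Fin n → Fin n → Fin n,
    IsLatinSquare L ∧ ∃ P : Finset (Fin n × Fin n), IsIndivisiblePlex L k P) : k ≤ kappa n := by
  unfold kappa
  apply le_csSup
  · refine ⟨n, ?_⟩
    rintro j ⟨_, L, _, P, hP, _⟩
    have h1 := hP.1 ⟨0, hn⟩
    rw [card_row_filter] at h1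
    rw [← h1]
    exact (Finset.card_le_univ _).trans (by simp)
  · exact ⟨hk, h⟩

end Pool.Agent.Lib.MP_185394_co
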