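import Pool.Agent.Lib.MP_185394_co.Plex

/-!
The Latin square of order `3m` built from a holey square `N` on `ZMod m`.
-/

namespace Pool.Agent.Lib.MP_185394_co

/-- the partial square used in the construction: an `m × m` array on `ZMod m` with the cells
`(X, -X)` empty, in which row `X` misses exactly the symbol `-X` and column `Y` misses exactly the
symbol `-Y`, and which is idempotent off zero -/
structure NSq {m : ℕ} (N : ZMod m → ZMod m → ZMod m) : Prop where
  row : ∀ X Y Y', Y ≠ -X → Y' ≠ -X → N X Y = N X Y' → Y = Y'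
  col : ∀ Y X X', X ≠ -Y → X' ≠ -Y → N X Y = N X' Y → X = X'
  row_ne : ∀ X Y, Y ≠ -X → N X Y ≠ -X
  col_ne : ∀ X Y, X ≠ -Y → N X Y ≠ -Y
  diag : ∀ X, X ≠ 0 → N X X = X

/-- every symbol other than `-X` occurs in row `X` -/
lemma NSq.row_surj {m : ℕ} [NeZero m] {N : ZMod m → ZMod m → ZMod m} (hN : NSq N) (X Z : ZMod m)
    (hZ : Z ≠ -X) : ∃ Y, Y ≠ -X ∧ N X Y = Z := by
  classical
  have h1 : ((Finset.univ.erase (-X)).image (N X)) = Finset.univ.erase (-X) := by
    apply Finset.eq_of_subset_of_card_le
    · intro s hs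
      obtain ⟨Y, hY, rfl⟩ := Finset.mem_image.mp hs
      rw [Finset.mem_erase] at hY ⊢
      exact ⟨hN.row_ne X Y hY.1, Finset.mem_univ _⟩
    · rw [Finset.card_image_of_injOn]
      intro Y hY Y' hY' h
      rw [Finset.mem_coe, Finset.mem_erase] at hY hY'
      exact hN.row X Y Y' hY.1 hY'.1 h
  have h2 : Z ∈ (Finset.univ.erase (-X)).image (N X) := by
    rw [h1]; exact Finset.mem_erase.mpr ⟨hZ, Finset.mem_univ _⟩
  obtain ⟨Y, hY, h⟩ := Finset.mem_image.mp h2
  exact ⟨Y, (Finset.mem_erase.mp hY).1, h⟩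

/-- every symbol other than `-Y` occurs in column `Y` -/
lemma NSq.col_surj {m : ℕ} [NeZero m] {N : ZMod m → ZMod m → ZMod m} (hN : NSq N) (Y Z : ZMod m)
    (hZ : Z ≠ -Y) : ∃ X, X ≠ -Y ∧ N X Y = Z := by
  classical
  have h1 : ((Finset.univ.erase (-Y)).image (fun X => N X Y)) = Finset.univ.erase (-Y) := by
    apply Finset.eq_of_subset_of_card_le
    · intro s hs
      obtain ⟨X, hX, rfl⟩ := Finset.mem_image.mp hs
      rw [Finset.mem_erase] at hX ⊢
      exact ⟨hN.col_ne X Y hX.1, Finset.mem_univ _⟩
    · rw [Finset.card_image_of_injOn]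
      intro X hX X' hX' h
      rw [Finset.mem_coe, Finset.mem_erase] at hX hX'
      exact hN.col Y X X' hX.1 hX'.1 h
  have h2 : Z ∈ (Finset.univ.erase (-Y)).image (fun X => N X Y) := by
    rw [h1]; exact Finset.mem_erase.mpr ⟨hZ, Finset.mem_univ _⟩
  obtain ⟨X, hX, h⟩ := Finset.mem_image.mp h2
  exact ⟨X, (Finset.mem_erase.mp hX).1, h⟩

/-- the index type -/
abbrev Idx (m : ℕ) : Type := (Bool × ZMod m) ⊕ ZMod m

open Sum in
/-- the Latin square of order `3m` -/
def bigL {m : ℕ} (N : ZMod m → ZMod m → ZMod m) : Idx m → Idx m → Idx m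
  | inl (ε, X), inl (δ, Y) =>
    if ε = δ then
      if Y = -X then inr 1
      else if ε = false then
        (if X = 1 ∧ Y = 1 then inl (true, 0) else inl (false, N X Y))
      else (if X = Y then inl (false, 1 - X) else inl (true, N X Y))
    else
      if X + Y = 1 then
        (if ε = false then (if X = 1 then inl (false, 1) else inl (true, Y))
         else (if Y = 1 then inl (false, 1) else inl (true, X)))
      else inr (2 - X - Y)
  | inr t, inl (δ, Y) => if t = 0 then inl (δ, -Y) else inl (!δ, 1 - Y + t)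
  | inl (ε, X), inr t => if t = 0 then inl (ε, -X) else inl (!ε, 1 - X + t)
  | inr t, inr t' => inr (t + t')

set_option linter.unusedSectionVars false

section latin

variable {m : ℕ} [NeZero m] {N : ZMod m → ZMod m → ZMod m}

open Sum

lemma L_anti (N : ZMod m → ZMod m → ZMod m) (ε : Bool) (X Y : ZMod m) (h : Y = -X) :
    bigL N (inl (ε, X)) (inl (ε, Y)) = inr 1 := by
  simp [bigL, h]

lemma L_f11 (N : ZMod m → ZMod m → ZMod m) (h1 : (1 : ZMod m) ≠ -1) :
    bigL N (inl (false, 1)) (inl (false, 1)) = inl (true, 0) := by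
  simp [bigL, h1]

lemma L_ff (N : ZMod m → ZMod m → ZMod m) (X Y : ZMod m) (h : Y ≠ -X) (h' : ¬ (X = 1 ∧ Y = 1)) :
    bigL N (inl (false, X)) (inl (false, Y)) = inl (false, N X Y) := by
  simp only [bigL, if_true, if_neg h, if_neg h']

lemma L_tt_diag (N : ZMod m → ZMod m → ZMod m) (X : ZMod m) (h : X ≠ -X) :
    bigL N (inl (true, X)) (inl (true, X)) = inl (false, 1 - X) := by
  simp [bigL, h]

lemma L_tt (N : ZMod m → ZMod m → ZMod m) (X Y : ZMod m) (h : Y ≠ -X) (h' : X ≠ Y) :
    bigL N (inl (true, X)) (inl (true, Y)) = inl (true, N X Y) := by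
  simp [bigL, h, h']

lemma L_ft (N : ZMod m → ZMod m → ZMod m) (X Y : ZMod m) (h : X + Y = 1) (h' : X ≠ 1) :
    bigL N (inl (false, X)) (inl (true, Y)) = inl (true, Y) := by
  simp [bigL, h, h']

lemma L_ft0 (N : ZMod m → ZMod m → ZMod m) (X Y : ZMod m) (h : X = 1) (h' : Y = 0) :
    bigL N (inl (false, X)) (inl (true, Y)) = inl (false, 1) := by
  simp [bigL, h, h']

lemma L_tf (N : ZMod m → ZMod m → ZMod m) (X Y : ZMod m) (h : X + Y = 1) (h' : Y ≠ 1) :
    bigL N (inl (true, X)) (inl (false, Y)) = inl (true, X) := by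
  simp [bigL, h, h']

lemma L_tf0 (N : ZMod m → ZMod m → ZMod m) (X Y : ZMod m) (h : X = 0) (h' : Y = 1) :
    bigL N (inl (true, X)) (inl (false, Y)) = inl (false, 1) := by
  simp [bigL, h, h']

lemma L_cross (N : ZMod m → ZMod m → ZMod m) (ε δ : Bool) (hεδ : ε ≠ δ) (X Y : ZMod m)
    (h : X + Y ≠ 1) : bigL N (inl (ε, X)) (inl (δ, Y)) = inr (2 - X - Y) := by
  simp [bigL, h, hεδ]

lemma L_r0 (N : ZMod m → ZMod m → ZMod m) (δ : Bool) (Y : ZMod m) :
    bigL N (inr 0) (inl (δ, Y)) = inl (δ, -Y) := by
  simp [bigL]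

lemma L_rt (N : ZMod m → ZMod m → ZMod m) (t : ZMod m) (ht : t ≠ 0) (δ : Bool) (Y : ZMod m) :
    bigL N (inr t) (inl (δ, Y)) = inl (!δ, 1 - Y + t) := by
  simp [bigL, ht]

lemma L_c0 (N : ZMod m → ZMod m → ZMod m) (ε : Bool) (X : ZMod m) :
    bigL N (inl (ε, X)) (inr 0) = inl (ε, -X) := by
  simp [bigL]

lemma L_ct (N : ZMod m → ZMod m → ZMod m) (t : ZMod m) (ht : t ≠ 0) (ε : Bool) (X : ZMod m) :
    bigL N (inl (ε, X)) (inr t) = inl (!ε, 1 - X + t) := by
  simp [bigL, ht]

lemma L_rr (N : ZMod m → ZMod m → ZMod m) (t t' : ZMod m) :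
    bigL N (inr t) (inr t') = inr (t + t') := rfl

lemma bigL_row_surj (hN : NSq N) (h1 : (1 : ZMod m) ≠ -1) (h2 : ∀ X : ZMod m, X = -X → X = 0)
    (r : Idx m) : Function.Surjective (bigL N r) := by
  rcases r with ⟨ε, X⟩ | t
  · rintro (⟨ζ, Z⟩ | t)
    · by_cases hζ : ζ = ε
      · subst hζ
        by_cases hZ : Z = -X
        · exact ⟨inr 0, by rw [L_c0, hZ]⟩
        · obtain ⟨Y, hY, hNY⟩ := hN.row_surj X Z hZ
          cases ζ with
          | false =>
            by_cases hXY : X = 1 ∧ Y = 1
            · obtain ⟨rfl, rfl⟩ := hXY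
              rw [hN.diag 1 (fun h => h1 (by rw [h, neg_zero]))] at hNY
              exact ⟨inl (true, 0), by rw [L_ft0 N 1 0 rfl rfl, hNY]⟩
            · exact ⟨inl (false, Y), by rw [L_ff N X Y hY hXY, hNY]⟩
          | true =>
            by_cases hXY : X = Y
            · subst hXY
              have hX0 : X ≠ 0 := fun h => hY (by rw [h, neg_zero])
              rw [hN.diag X hX0] at hNY
              refine ⟨inl (false, 1 - X), ?_⟩
              rw [L_tf N X (1 - X) (by ring) (fun h => hX0 (by linear_combination -h)), hNY]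
            · exact ⟨inl (true, Y), by rw [L_tt N X Y hY hXY, hNY]⟩
      · have hζ' : ζ = !ε := by
          revert hζ
          cases ζ <;> cases ε <;> decide
        subst hζ'
        by_cases hZ : Z = 1 - X
        · subst hZ
          cases ε with
          | false =>
            by_cases hX : X = 1
            · subst hX
              exact ⟨inl (false, 1), by rw [L_f11 N h1]; simp⟩
            · exact ⟨inl (true, 1 - X), by rw [L_ft N X (1 - X) (by ring) hX]; simp⟩
          | true =>
            by_cases hX : X = 0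
            · subst hX
              exact ⟨inl (false, 1), by rw [L_tf0 N 0 1 rfl rfl]; simp⟩
            · exact ⟨inl (true, X), by rw [L_tt_diag N X (fun h => hX (h2 X h))]; simp⟩
        · refine ⟨inr (Z - 1 + X), ?_⟩
          rw [L_ct N _ (fun h => hZ (by linear_combination h))]
          congr 2
          ring
    · by_cases ht : t = 1
      · exact ⟨inl (ε, -X), by rw [L_anti N ε X (-X) rfl, ht]⟩
      · refine ⟨inl (!ε, 2 - X - t), ?_⟩
        rw [L_cross N ε (!ε) (by cases ε <;> simp) X _ (fun h => ht (by linear_combination -h))]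
        congr 1
        ring
  · rintro (⟨ζ, Z⟩ | t')
    · by_cases ht : t = 0
      · subst ht
        exact ⟨inl (ζ, -Z), by rw [L_r0, neg_neg]⟩
      · refine ⟨inl (!ζ, 1 + t - Z), ?_⟩
        rw [L_rt N t ht, Bool.not_not]
        congr 2
        ring
    · refine ⟨inr (t' - t), ?_⟩
      rw [L_rr]
      congr 1
      ring

lemma bigL_col_surj (hN : NSq N) (h1 : (1 : ZMod m) ≠ -1) (h2 : ∀ X : ZMod m, X = -X → X = 0)
    (c : Idx m) : Function.Surjective (fun r => bigL N r c) := by
  rcases c with ⟨δ, Y⟩ | t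
  · rintro (⟨ζ, Z⟩ | t)
    · by_cases hζ : ζ = δ
      · subst hζ
        by_cases hZ : Z = -Y
        · exact ⟨inr 0, by simp only []; rw [L_r0, hZ]⟩
        · obtain ⟨X, hX, hNX⟩ := hN.col_surj Y Z hZ
          have hX' : Y ≠ -X := fun h => hX (by rw [h, neg_neg])
          cases ζ with
          | false =>
            by_cases hXY : X = 1 ∧ Y = 1
            · obtain ⟨rfl, rfl⟩ := hXY
              rw [hN.diag 1 (fun h => h1 (by rw [h, neg_zero]))] at hNX
              exact ⟨inl (true, 0), by simp only []; rw [L_tf0 N 0 1 rfl rfl, hNX]⟩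
            · exact ⟨inl (false, X), by simp only []; rw [L_ff N X Y hX' hXY, hNX]⟩
          | true =>
            by_cases hXY : X = Y
            · subst hXY
              have hX0 : X ≠ 0 := fun h => hX (by rw [h, neg_zero])
              rw [hN.diag X hX0] at hNX
              refine ⟨inl (false, 1 - X), ?_⟩
              simp only []
              rw [L_ft N (1 - X) X (by ring) (fun h => hX0 (by linear_combination -h)), hNX]
            · exact ⟨inl (true, X), by simp only []; rw [L_tt N X Y hX' hXY, hNX]⟩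
      · have hζ' : ζ = !δ := by
          revert hζ
          cases ζ <;> cases δ <;> decide
        subst hζ'
        by_cases hZ : Z = 1 - Y
        · subst hZ
          cases δ with
          | false =>
            by_cases hY : Y = 1
            · subst hY
              exact ⟨inl (false, 1), by simp only []; rw [L_f11 N h1]; simp⟩
            · exact ⟨inl (true, 1 - Y), by simp only []; rw [L_tf N (1 - Y) Y (by ring) hY]; simp⟩
          | true =>
            by_cases hY : Y = 0
            · subst hY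
              exact ⟨inl (false, 1), by simp only []; rw [L_ft0 N 1 0 rfl rfl]; simp⟩
            · exact ⟨inl (true, Y), by
                simp only []; rw [L_tt_diag N Y (fun h => hY (h2 Y h))]; simp⟩
        · refine ⟨inr (Z - 1 + Y), ?_⟩
          simp only []
          rw [L_rt N _ (fun h => hZ (by linear_combination h))]
          congr 2
          ring
    · by_cases ht : t = 1
      · exact ⟨inl (δ, -Y), by simp only []; rw [L_anti N δ (-Y) Y (by ring), ht]⟩
      · refine ⟨inl (!δ, 2 - Y - t), ?_⟩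
        simp only []
        rw [L_cross N (!δ) δ (by cases δ <;> simp) _ Y (fun h => ht (by linear_combination -h))]
        congr 1
        ring
  · rintro (⟨ζ, Z⟩ | t')
    · by_cases ht : t = 0
      · subst ht
        exact ⟨inl (ζ, -Z), by simp only []; rw [L_c0, neg_neg]⟩
      · refine ⟨inl (!ζ, 1 + t - Z), ?_⟩
        simp only []
        rw [L_ct N t ht, Bool.not_not]
        congr 2
        ring
    · refine ⟨inr (t' - t), ?_⟩
      simp only []
      rw [L_rr]
      congr 1
      ring

lemma bigL_latin (hN : NSq N) (h1 : (1 : ZMod m) ≠ -1) (h2 : ∀ X : ZMod m, X = -X → X = 0) :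
    IsLatinSquare (bigL N) :=
  ⟨fun r => Finite.injective_iff_surjective.mpr (bigL_row_surj hN h1 h2 r),
    fun c => Finite.injective_iff_surjective.mpr (bigL_col_surj hN h1 h2 c)⟩

end latin

end Pool.Agent.Lib.MP_185394_co
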